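import Mathlib
import Pool.Agent.Lib.helper1.Symm

namespace Pool.Agent.Results.MP_84aa88_gt.NotCanonical

open Set Real Pool.Agent.Lib.helper1.Symm

/-- the Euclidean plane -/
abbrev E := EuclideanSpace ℝ (Fin 2)

/-- nonempty compact convex sets -/
def K2 (K : Set E) : Prop := IsCompact K ∧ Convex ℝ K ∧ K.Nonempty

/-- the integral of the support function over the unit circle (`= 2 V₁ =` perimeter, Cauchy) -/
noncomputable def per (K : Set E) : ℝ :=
  ∫ θ in (0 : ℝ)..2 * π, sSup ((fun y : E => inner ℝ y !₂[cos θ, sin θ]) '' K)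

lemma mean : Mean fun f : E → ℝ => ∫ θ in (0 : ℝ)..2 * π, f !₂[cos θ, sin θ] := by
  have c : Continuous fun θ : ℝ => (!₂[cos θ, sin θ] : E) := by fun_prop
  have key : ∀ f : E → ℝ, Continuous f → ∀ a b, IntervalIntegrable (fun θ => f !₂[cos θ, sin θ])
      MeasureTheory.volume a b := fun f hf a b => (hf.comp c).intervalIntegrable _ _
  refine ⟨fun f g hf hg => intervalIntegral.integral_add (key f hf.1 _ _) (key g hg.1 _ _),
    fun c f => intervalIntegral.integral_const_mul _ _,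
    fun f g hf hg hfg => intervalIntegral.integral_mono_on (by positivity) (key f hf.1 _ _)
      (key g hg.1 _ _) fun _ _ => hfg _, fun f => ?_, fun a ha => ?_⟩
  · have p : Function.Periodic (fun θ : ℝ => f !₂[cos θ, sin θ]) (2 * π) := fun θ => by simp
    have e : (fun θ : ℝ => f (-!₂[cos θ, sin θ])) = fun θ => f !₂[cos (θ + π), sin (θ + π)] := by
      funext θ; congr 1; ext i; fin_cases i <;> simp
    have := p.intervalIntegral_add_eq π 0
    rw [e, intervalIntegral.integral_comp_add_right (fun θ : ℝ => f !₂[cos θ, sin θ]), zero_add,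
      add_comm, this, zero_add]
  · have hc : Continuous fun θ : ℝ => |inner ℝ a (!₂[cos θ, sin θ] : E)| := by fun_prop
    refine intervalIntegral.integral_pos (by positivity) hc.continuousOn
      (fun _ _ => abs_nonneg _) ?_
    by_contra h
    push Not at h
    have h0 := h 0 ⟨le_rfl, by positivity⟩
    have h1 := h (π / 2) ⟨by positivity, by linarith [pi_pos]⟩
    simp [PiLp.inner_apply] at h0 h1
    exact ha (by ext i; fin_cases i <;> simp [h0, h1])

theorem result : ∃ D : Set E → Set E,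
    (∀ K, K2 K → K2 (D K) ∧ ∀ x ∈ D K, -x ∈ D K) ∧
    (∀ K L, K2 K → K2 L → K ⊆ L → D K ⊆ D L) ∧
    (∀ K, K2 K → (∀ x ∈ K, -x ∈ K) → D K = K) ∧
    (∀ K, K2 K → per (D K) = per K) ∧
    ∃ p q : E, p ≠ q ∧ ∀ r s : E, D (segment ℝ p q) ≠ segment ℝ r s := by
  refine ⟨D fun f : E → ℝ => ∫ θ in (0 : ℝ)..2 * π, f !₂[cos θ, sin θ],
    fun K hK => ⟨⟨D_compact hK.1, D_convex hK.2.1,
      ⟨_, D_mem (zero_cone hK.2.2) (zero_cone hK.2.2)⟩⟩, fun x hx => mk_neg hx⟩,
    fun K L hK hL h => D_mono mean hK.1 hK.2.2 hL.1 hL.2.1 h,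
    fun K hK hs => D_fix hK.2.1 hK.2.2 hs, fun K hK => D_mean mean hK.1 hK.2.1 hK.2.2,
    !₂[1, 0], !₂[0, 1], ?_, fun r s e => ?_⟩
  · intro h; simpa using congrFun (congrArg WithLp.ofLp h) 0
  · have hc : IsCompact (segment ℝ (!₂[1, 0] : E) !₂[0, 1]) := by
      rw [segment_eq_image]; exact isCompact_Icc.image (by fun_prop)
    have l := left_mem_segment ℝ (!₂[1, 0] : E) !₂[0, 1]
    have r' := right_mem_segment ℝ (!₂[1, 0] : E) !₂[0, 1]
    have hβ := bet_pos mean hc l r' fun h => by simpa using congrFun (congrArg WithLp.ofLp h) 0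
    obtain ⟨a1, b1, -, -, s1, e1⟩ := e.le (D_mem (sub_cone _ l) (zero_cone ⟨_, l⟩))
    obtain ⟨a2, b2, -, -, s2, e2⟩ := e.le (D_mem (sub_cone _ r') (zero_cone ⟨_, l⟩))
    obtain ⟨a3, b3, -, -, s3, e3⟩ := e.le (D_mem (zero_cone ⟨_, l⟩) (zero_cone ⟨_, l⟩))
    generalize bet (E := E) _ _ = β at hβ e1 e2 e3
    have x1 := congrFun (congrArg WithLp.ofLp e1) 0
    have y1 := congrFun (congrArg WithLp.ofLp e1) 1
    have x2 := congrFun (congrArg WithLp.ofLp e2) 0
    have y2 := congrFun (congrArg WithLp.ofLp e2) 1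
    have x3 := congrFun (congrArg WithLp.ofLp e3) 0
    have y3 := congrFun (congrArg WithLp.ofLp e3) 1
    simp at x1 y1 x2 y2 x3 y3
    obtain rfl : a1 = 1 - b1 := by linarith
    obtain rfl : a2 = 1 - b2 := by linarith
    obtain rfl : a3 = 1 - b3 := by linarith
    have u1 : (b1 - b3) * (s 0 - r 0) = β / 2 := by linarith
    have u2 : (b1 - b3) * (s 1 - r 1) = 0 := by linarith
    have u3 : (b2 - b3) * (s 1 - r 1) = β / 2 := by linarith
    rcases mul_eq_zero.mp u2 with h | h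
    · rw [h] at u1; linarith
    · rw [h] at u3; linarith

end Pool.Agent.Results.MP_84aa88_gt.NotCanonical
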